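import Pool.Agent.W212.EFF.Lower

/-! Vectors with negative inner products, and the sharp lower bound for cover-free families. -/

set_option autoImplicit false

namespace Pool.Agent.U438.EFF

open Finset

/-- Vectors with coordinate sum `0` and with pairwise negative inner products: there are at most as many as coordinates. -/
theorem neg_card {V ι : Type*} [DecidableEq ι] (X : Finset V) (s : Finset ι) (y : ι → V → ℝ)
    (hX : X.Nonempty)
    (h1 : ∀ i ∈ s, ∑ v ∈ X, y i v = 0)
    (h2 : ∀ i ∈ s, ∀ j ∈ s, i ≠ j → ∑ v ∈ X, y i v * y j v < 0) : s.card ≤ X.card := by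
  classical
  rcases s.eq_empty_or_nonempty with rfl | ⟨i0, hi0⟩
  · simp
  set s' := s.erase i0 with hs'
  have hmem : ∀ i : s', (i : ι) ∈ s ∧ (i : ι) ≠ i0 := fun i => by
    have := Finset.mem_erase.1 i.2
    exact ⟨this.2, this.1⟩
  let w : Option s' → (X → ℝ) := fun o => o.elim (fun _ => 1) (fun i v => y i v)
  have hw : LinearIndependent ℝ w := by
    rw [Fintype.linearIndependent_iff]
    intro g hg
    have E : ∀ v ∈ X, g none + ∑ i : s', g (some i) * y i v = 0 := by
      intro v hv
      have := congrFun hg ⟨v, hv⟩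
      rw [Fintype.sum_option] at this
      simpa [w, Finset.sum_apply] using this
    have hn : g none = 0 := by
      have e1 : ∑ v ∈ X, (g none + ∑ i : s', g (some i) * y i v) = 0 :=
        Finset.sum_eq_zero E
      rw [Finset.sum_add_distrib, Finset.sum_comm] at e1
      have e2 : ∑ i : s', ∑ v ∈ X, g (some i) * y i v = 0 := by
        apply Finset.sum_eq_zero
        intro i _
        rw [← Finset.mul_sum, h1 i (hmem i).1, mul_zero]
      rw [e2, add_zero, Finset.sum_const, nsmul_eq_mul] at e1
      rcases mul_eq_zero.1 e1 with e3 | e3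
      · exfalso
        have : X.card = 0 := by exact_mod_cast e3
        rw [Finset.card_eq_zero] at this
        exact hX.ne_empty this
      · exact e3
    have E' : ∀ v ∈ X, ∑ i : s', g (some i) * y i v = 0 := by
      intro v hv
      have := E v hv
      rwa [hn, zero_add] at this
    obtain ⟨a, ha⟩ : ∃ a : s' → ℝ, a = fun i => max (g (some i)) 0 := ⟨_, rfl⟩
    obtain ⟨b, hb⟩ : ∃ b : s' → ℝ, b = fun i => max (-g (some i)) 0 := ⟨_, rfl⟩
    have ha0 : ∀ i, 0 ≤ a i := fun i => by rw [ha]; exact le_max_right _ _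
    have hb0 : ∀ i, 0 ≤ b i := fun i => by rw [hb]; exact le_max_right _ _
    have hab : ∀ i, g (some i) = a i - b i := by
      intro i
      rw [ha, hb]
      simp only
      rcases le_total 0 (g (some i)) with h | h
      · rw [max_eq_left h, max_eq_right (by linarith)]; ring
      · rw [max_eq_right h, max_eq_left (by linarith)]; ring
    have hab0 : ∀ i, a i * b i = 0 := by
      intro i
      rw [ha, hb]
      simp only
      rcases le_total 0 (g (some i)) with h | h
      · rw [max_eq_right (show -g (some i) ≤ 0 by linarith), mul_zero]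
      · rw [max_eq_right h, zero_mul]
    have hz : ∀ v ∈ X, ∑ i : s', a i * y i v = ∑ i : s', b i * y i v := by
      intro v hv
      have := E' v hv
      simp only [hab, sub_mul] at this
      rw [Finset.sum_sub_distrib] at this
      linarith
    have hzz : ∑ v ∈ X, (∑ i : s', a i * y i v) * (∑ i : s', a i * y i v) ≤ 0 := by
      have e1 : ∑ v ∈ X, (∑ i : s', a i * y i v) * (∑ i : s', a i * y i v) =
          ∑ i : s', ∑ j : s', a i * b j * ∑ v ∈ X, y i v * y j v := by
        calc ∑ v ∈ X, (∑ i : s', a i * y i v) * (∑ i : s', a i * y i v) =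
              ∑ v ∈ X, ∑ i : s', ∑ j : s', a i * b j * (y i v * y j v) := by
              apply Finset.sum_congr rfl
              intro v hv
              nth_rw 2 [hz v hv]
              rw [Finset.sum_mul_sum]
              apply Finset.sum_congr rfl
              intro i _
              apply Finset.sum_congr rfl
              intro j _
              ring
          _ = _ := by
              rw [Finset.sum_comm]
              apply Finset.sum_congr rfl
              intro i _
              rw [Finset.sum_comm]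
              apply Finset.sum_congr rfl
              intro j _
              rw [Finset.mul_sum]
      rw [e1]
      apply Finset.sum_nonpos
      intro i _
      apply Finset.sum_nonpos
      intro j _
      by_cases hij : i = j
      · subst hij
        rw [hab0, zero_mul]
      · have := h2 i (hmem i).1 j (hmem j).1 (fun h => hij (Subtype.ext h))
        exact mul_nonpos_of_nonneg_of_nonpos (mul_nonneg (ha0 i) (hb0 j)) this.le
    have hz0 : ∀ v ∈ X, ∑ i : s', a i * y i v = 0 := by
      intro v hv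
      have e1 : ∑ v ∈ X, (∑ i : s', a i * y i v) * (∑ i : s', a i * y i v) = 0 :=
        le_antisymm hzz (Finset.sum_nonneg fun v _ => mul_self_nonneg _)
      have e2 := (Finset.sum_eq_zero_iff_of_nonneg (fun v _ => mul_self_nonneg _)).1 e1 v hv
      exact mul_self_eq_zero.1 e2
    have van : ∀ d : s' → ℝ, (∀ i, 0 ≤ d i) → (∀ v ∈ X, ∑ i : s', d i * y i v = 0) →
        ∀ i, d i = 0 := by
      intro d hd hd0 i
      have e1 : ∑ j : s', d j * ∑ v ∈ X, y j v * y i0 v = 0 := by
        calc ∑ j : s', d j * ∑ v ∈ X, y j v * y i0 v =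
              ∑ v ∈ X, (∑ j : s', d j * y j v) * y i0 v := by
              simp only [Finset.mul_sum, Finset.sum_mul]
              rw [Finset.sum_comm]
              apply Finset.sum_congr rfl
              intro v _
              apply Finset.sum_congr rfl
              intro j _
              ring
          _ = 0 := by
              apply Finset.sum_eq_zero
              intro v hv
              rw [hd0 v hv, zero_mul]
      have e2 : ∀ j ∈ (Finset.univ : Finset s'), d j * ∑ v ∈ X, y j v * y i0 v ≤ 0 := by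
        intro j _
        exact mul_nonpos_of_nonneg_of_nonpos (hd j) (h2 j (hmem j).1 i0 hi0 (hmem j).2).le
      have e3 := (Finset.sum_eq_zero_iff_of_nonpos e2).1 e1 i (Finset.mem_univ i)
      rcases mul_eq_zero.1 e3 with h | h
      · exact h
      · exact absurd h (h2 i (hmem i).1 i0 hi0 (hmem i).2).ne
    have hza := van a ha0 hz0
    have hzb := van b hb0 (fun v hv => by rw [← hz v hv]; exact hz0 v hv)
    intro o
    rcases o with _ | i
    · exact hn
    · rw [hab, hza, hzb, sub_zero]
  have hcard := hw.fintype_card_le_finrank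
  rw [Fintype.card_option, Fintype.card_coe, Module.finrank_fintype_fun_eq_card,
    Fintype.card_coe, hs', Finset.card_erase_of_mem hi0] at hcard
  have : 0 < s.card := Finset.card_pos.2 ⟨i0, hi0⟩
  omega

variable {V : Type*} [DecidableEq V]

/-- If `A ∈ F` carry weights `u A` with sum at most `1` on the other members and with `∑ √u ≥ t + 1` on `A`, and there are fewer
than `(t + 1) ^ 2` points, then there are at most as many members as points. -/
theorem count {t : ℕ} (X : Finset V) (F : Finset (Finset V)) (hX : ∀ A ∈ F, A ⊆ X)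
    (u : Finset V → V → ℝ) (hu0 : ∀ A ∈ F, ∀ v, 0 ≤ u A v)
    (hu1 : ∀ A ∈ F, ∀ A' ∈ F, A' ≠ A → ∑ v ∈ A' ∩ A, u A v ≤ 1)
    (hu2 : ∀ A ∈ F, (t + 1 : ℝ) ≤ ∑ v ∈ A, Real.sqrt (u A v))
    (hn : X.card < (t + 1) ^ 2) : F.card ≤ X.card := by
  classical
  rcases X.eq_empty_or_nonempty with hX0 | hXne
  · -- no points: no members
    rcases F.eq_empty_or_nonempty with hF | ⟨A, hA⟩
    · rw [hF]; simp
    · exfalso
      have h1 := hX A hA
      rw [hX0, Finset.subset_empty] at h1
      have h2 := hu2 A hA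
      rw [h1, Finset.sum_empty] at h2
      have : (0:ℝ) ≤ t := Nat.cast_nonneg t
      linarith
  have hn0 : (0:ℝ) < X.card := by exact_mod_cast Finset.card_pos.2 hXne
  have ht : (0:ℝ) < (t:ℝ) + 1 := by positivity
  obtain ⟨σ, hσ⟩ : ∃ σ : Finset V → ℝ, σ = fun A => ∑ v ∈ A, Real.sqrt (u A v) := ⟨_, rfl⟩
  have hσ1 : ∀ A ∈ F, (t:ℝ) + 1 ≤ σ A := fun A hA => by rw [hσ]; exact hu2 A hA
  obtain ⟨x, hx⟩ : ∃ x : Finset V → V → ℝ,
    x = fun A v => if v ∈ A then ((t:ℝ) + 1) / σ A * Real.sqrt (u A v) else 0 := ⟨_, rfl⟩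
  have hsum : ∀ A ∈ F, ∑ v ∈ X, x A v = (t:ℝ) + 1 := by
    intro A hA
    have hσp : 0 < σ A := lt_of_lt_of_le ht (hσ1 A hA)
    rw [hx]
    simp only
    rw [← Finset.sum_filter, Finset.filter_mem_eq_inter, Finset.inter_eq_right.2 (hX A hA),
      ← Finset.mul_sum]
    have : ∑ v ∈ A, Real.sqrt (u A v) = σ A := by rw [hσ]
    rw [this, div_mul_cancel₀ _ hσp.ne']
  have hinner : ∀ A ∈ F, ∀ B ∈ F, A ≠ B → ∑ v ∈ X, x A v * x B v ≤ 1 := by
    intro A hA B hB hAB
    have hσA : 0 < σ A := lt_of_lt_of_le ht (hσ1 A hA)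
    have hσB : 0 < σ B := lt_of_lt_of_le ht (hσ1 B hB)
    have e1 : ∑ v ∈ X, x A v * x B v = ((t:ℝ) + 1) / σ A * (((t:ℝ) + 1) / σ B) *
        ∑ v ∈ A ∩ B, Real.sqrt (u A v) * Real.sqrt (u B v) := by
      have hsub : A ∩ B ⊆ X := Finset.inter_subset_left.trans (hX A hA)
      rw [Finset.mul_sum, ← Finset.sum_subset hsub]
      · apply Finset.sum_congr rfl
        intro v hv
        have hv' := Finset.mem_inter.1 hv
        rw [hx]
        simp only
        rw [if_pos hv'.1, if_pos hv'.2]
        ring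
      · intro v _ hv
        rw [hx]
        simp only
        by_cases h1 : v ∈ A
        · have h2 : v ∉ B := fun h => hv (Finset.mem_inter.2 ⟨h1, h⟩)
          rw [if_neg h2, mul_zero]
        · rw [if_neg h1, zero_mul]
    have e2 : ∑ v ∈ A ∩ B, Real.sqrt (u A v) * Real.sqrt (u B v) ≤ 1 := by
      have c1 : ∑ v ∈ A ∩ B, u B v ≤ 1 := hu1 B hB A hA hAB
      have c2 : ∑ v ∈ A ∩ B, u A v ≤ 1 := by
        rw [Finset.inter_comm]
        exact hu1 A hA B hB hAB.symm
      calc ∑ v ∈ A ∩ B, Real.sqrt (u A v) * Real.sqrt (u B v) ≤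
            ∑ v ∈ A ∩ B, (u A v + u B v) / 2 := by
            apply Finset.sum_le_sum
            intro v _
            have p1 := Real.mul_self_sqrt (hu0 A hA v)
            have p2 := Real.mul_self_sqrt (hu0 B hB v)
            nlinarith [mul_self_nonneg (Real.sqrt (u A v) - Real.sqrt (u B v))]
        _ = (∑ v ∈ A ∩ B, u A v + ∑ v ∈ A ∩ B, u B v) / 2 := by
            rw [← Finset.sum_add_distrib, Finset.sum_div]
        _ ≤ 1 := by linarith
    rw [e1]
    have q1 : 0 ≤ ((t:ℝ) + 1) / σ A := (div_pos ht hσA).le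
    have q2 : 0 ≤ ((t:ℝ) + 1) / σ B := (div_pos ht hσB).le
    have q3 : ((t:ℝ) + 1) / σ A ≤ 1 := (div_le_one hσA).2 (hσ1 A hA)
    have q4 : ((t:ℝ) + 1) / σ B ≤ 1 := (div_le_one hσB).2 (hσ1 B hB)
    have q5 : 0 ≤ ∑ v ∈ A ∩ B, Real.sqrt (u A v) * Real.sqrt (u B v) :=
      Finset.sum_nonneg fun v _ => mul_nonneg (Real.sqrt_nonneg _) (Real.sqrt_nonneg _)
    calc _ ≤ 1 * 1 * ∑ v ∈ A ∩ B, Real.sqrt (u A v) * Real.sqrt (u B v) := by gcongr
      _ ≤ 1 := by linarith
  refine neg_card X F (fun A v => x A v - ((t:ℝ) + 1) / X.card) hXne ?_ ?_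
  · intro A hA
    rw [Finset.sum_sub_distrib, hsum A hA, Finset.sum_const, nsmul_eq_mul]
    field_simp
    ring
  · intro A hA B hB hAB
    have e1 : ∑ v ∈ X, (x A v - ((t:ℝ) + 1) / X.card) * (x B v - ((t:ℝ) + 1) / X.card) =
        ∑ v ∈ X, x A v * x B v - ((t:ℝ) + 1) / X.card * ∑ v ∈ X, x A v -
          ((t:ℝ) + 1) / X.card * ∑ v ∈ X, x B v + X.card * (((t:ℝ) + 1) / X.card) ^ 2 := by
      rw [Finset.mul_sum, Finset.mul_sum, ← Finset.sum_sub_distrib, ← Finset.sum_sub_distrib,
        ← nsmul_eq_mul, ← Finset.sum_const, ← Finset.sum_add_distrib]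
      apply Finset.sum_congr rfl
      intro v _
      ring
    rw [e1, hsum A hA, hsum B hB]
    have e2 : ∑ v ∈ X, x A v * x B v - ((t:ℝ) + 1) / X.card * ((t:ℝ) + 1) -
          ((t:ℝ) + 1) / X.card * ((t:ℝ) + 1) + X.card * (((t:ℝ) + 1) / X.card) ^ 2 =
        ∑ v ∈ X, x A v * x B v - ((t:ℝ) + 1) ^ 2 / X.card := by
      field_simp
      ring
    rw [e2]
    have e3 : 1 < ((t:ℝ) + 1) ^ 2 / X.card := by
      rw [lt_div_iff₀ hn0, one_mul]
      exact_mod_cast hn
    linarith [hinner A hA B hB hAB]

open Pool.Agent.W212.EFF in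
/-- **Sharp lower bound.** A `t`-cover-free family with more members than points lives on at least `(t + 1) ^ 2` points. -/
theorem lower {t : ℕ} : ∀ (n : ℕ) (X : Finset V), X.card ≤ n →
    ∀ F : Finset (Finset V), (∀ A ∈ F, A ⊆ X) →
    (∀ A ∈ F, ∀ G ⊆ F.erase A, G.card ≤ t → ¬ A ⊆ G.sup id) → X.card < F.card →
    (t + 1) ^ 2 ≤ X.card := by
  classical
  intro n
  induction n with
  | zero =>
    intro X hX F hF hcf hlt
    exfalso
    have hX0 : X = ∅ := Finset.card_eq_zero.1 (Nat.le_zero.1 hX)
    subst hX0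
    obtain ⟨A, hA⟩ := Finset.card_pos.1 (lt_of_le_of_lt (Nat.zero_le _) hlt)
    apply hcf A hA ∅ (Finset.empty_subset _) (by simp)
    exact (hF A hA).trans (Finset.empty_subset _)
  | succ n ih =>
    intro X hX F hF hcf hlt
    by_cases hpriv : ∀ A ∈ F, ∀ x ∈ A, ∃ A' ∈ F, A' ≠ A ∧ x ∈ A'
    · have hpack : ∀ A ∈ F, ∃ u : V → ℝ, (∀ v, 0 ≤ u v) ∧
          (∀ A' ∈ F, A' ≠ A → ∑ v ∈ A' ∩ A, u v ≤ 1) ∧
          (t + 1 : ℝ) ≤ ∑ v ∈ A, Real.sqrt (u v) := by
        intro A hA
        have hne : A.Nonempty := by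
          rw [Finset.nonempty_iff_ne_empty]
          intro hA0
          apply hcf A hA ∅ (Finset.empty_subset _) (by simp)
          rw [hA0]
          exact Finset.empty_subset _
        obtain ⟨u, hu0, hu1, hu2⟩ := exists_packing (fun i : ↥(F.erase A) => i.1) A (by
          intro v hv
          obtain ⟨A', hA', hne, hvA'⟩ := hpriv A hA v hv
          exact ⟨⟨A', Finset.mem_erase.2 ⟨hne, hA'⟩⟩, hvA'⟩) hne
        refine ⟨u, hu0, ?_, ?_⟩
        · intro A' hA' hne'
          exact hu1 ⟨A', Finset.mem_erase.2 ⟨hne', hA'⟩⟩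
        · refine le_trans ?_ hu2
          have h1 : t + 1 ≤ Y (face (Finset.univ : Finset ↥(F.erase A)) (fun i => i.1)) A := by
            by_contra hlt'
            push Not at hlt'
            obtain ⟨G, hG, hGc, hGs⟩ := cov_family (hpriv A hA) (Finset.Subset.refl A)
              (Y_spec (face_cpx _ _) A)
            exact hcf A hA G hG (by omega) hGs
          exact_mod_cast h1
      choose! u hu0 hu1 hu2 using hpack
      by_contra hcon
      have := count X F hF u hu0 hu1 hu2 (not_le.1 hcon)
      omega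
    · push Not at hpriv
      obtain ⟨A, hA, x, hxA, hx⟩ := hpriv
      have hxX : x ∈ X := hF A hA hxA
      have hX1 : 1 ≤ X.card := Finset.card_pos.2 ⟨x, hxX⟩
      have hF1 : 1 ≤ F.card := Finset.card_pos.2 ⟨A, hA⟩
      have := ih (X.erase x) (by rw [Finset.card_erase_of_mem hxX]; omega) (F.erase A) (by
        intro B hB
        have hB' := Finset.mem_erase.1 hB
        intro y hy
        refine Finset.mem_erase.2 ⟨fun hc => ?_, hF B hB'.2 hy⟩
        subst hc
        exact hx B hB'.2 hB'.1 hy) (by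
        intro B hB G hG hGc
        have hB' := Finset.mem_erase.1 hB
        apply hcf B hB'.2 G _ hGc
        intro Z hZ
        have := Finset.mem_erase.1 (hG hZ)
        exact Finset.mem_erase.2 ⟨this.1, Finset.mem_of_mem_erase this.2⟩) (by
        rw [Finset.card_erase_of_mem hxX, Finset.card_erase_of_mem hA]
        omega)
      rw [Finset.card_erase_of_mem hxX] at this
      omega

end Pool.Agent.U438.EFF
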